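import Pool.Agent.H586.AF.A

/-! # Task AF-C: the heat traces of the four one dimensional Laplacians

Each of the four Laplacians is diagonalised by explicit sine or cosine vectors with distinct eigenvalues `ek θ`; the traces are
monotone Riemann sums of `hh`. -/

set_option autoImplicit false
set_option linter.unusedVariables false

open MeasureTheory Matrix Finset Filter Topology

namespace Pool.Agent.H643.AF

open Pool.Agent.H586.AF

noncomputable section

/-- the trace of the heat kernel from a system of eigenvectors with distinct eigenvalues -/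
theorem cc_eq {n : ℕ} (A : Matrix (Fin n) (Fin n) ℝ) (d : Fin n → ℝ) (v : Fin n → Fin n → ℝ)
    (hd : Function.Injective d) (hv : ∀ m, v m ≠ 0) (hA : ∀ m, A *ᵥ v m = d m • v m) (t : ℝ) :
    cc A t = ∑ m, Real.exp (-t * d m) := by
  have hli : LinearIndependent ℝ v := by
    refine Module.End.eigenvectors_linearIndependent' (Matrix.toLin' A) d hd v ?_
    intro m
    refine ⟨?_, hv m⟩
    rw [Module.End.mem_eigenspace_iff, Matrix.toLin'_apply, hA]
  set U : Matrix (Fin n) (Fin n) ℝ := Matrix.of fun i m => v m i with hU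
  have hUt : U.col = v := by
    funext m i
    rfl
  have hUu : IsUnit U := by
    rw [← Matrix.linearIndependent_cols_iff_isUnit, hUt]
    exact hli
  have hdet : IsUnit U.det := (Matrix.isUnit_iff_isUnit_det U).1 hUu
  have h1 : A * U = U * Matrix.diagonal d := by
    ext i m
    rw [Matrix.mul_diagonal]
    have h2 := congrFun (hA m) i
    have h3 : (A * U) i m = (A *ᵥ v m) i := rfl
    rw [h3, h2, Pi.smul_apply, smul_eq_mul, mul_comm]
    rfl
  have h2 : A = U * Matrix.diagonal d * U⁻¹ := by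
    rw [← h1, Matrix.mul_assoc, Matrix.mul_nonsing_inv U hdet, Matrix.mul_one]
  have h3 : (-t) • A = U * Matrix.diagonal (fun m => -t * d m) * U⁻¹ := by
    conv_lhs => rw [h2]
    have h4 : Matrix.diagonal (fun m => -t * d m) = (-t) • Matrix.diagonal d := by
      rw [← Matrix.diagonal_smul]
      rfl
    rw [h4, Matrix.mul_smul, Matrix.smul_mul]
  unfold cc hk
  rw [h3, Matrix.exp_conj _ _ hUu, Matrix.trace_mul_comm, ← Matrix.mul_assoc,
    Matrix.nonsing_inv_mul U hdet, Matrix.one_mul, Matrix.exp_diagonal, Matrix.trace_diagonal]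
  refine Finset.sum_congr rfl fun m _ => ?_
  rw [Pi.coe_exp, Real.exp_eq_exp_ℝ]

theorem sum_fin_ite (m j : ℕ) (G : ℕ → ℝ) :
    ∑ i : Fin m, (if (i : ℕ) = j then (1 : ℝ) else 0) * G i = if j < m then G j else 0 := by
  rw [Fin.sum_univ_eq_sum_range (fun i => (if i = j then (1 : ℝ) else 0) * G i) m]
  simp only [ite_mul, one_mul, zero_mul]
  rw [Finset.sum_ite_eq']
  simp only [Finset.mem_range]

theorem sum_fin_ite' (m j : ℕ) (G : ℕ → ℝ) :
    ∑ i : Fin m, (if (i : ℕ) + 1 = j then (1 : ℝ) else 0) * G i =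
      if 1 ≤ j ∧ j - 1 < m then G (j - 1) else 0 := by
  rcases Nat.eq_zero_or_pos j with h | h
  · subst h
    simp
  · obtain ⟨k, rfl⟩ : ∃ k, j = k + 1 := ⟨j - 1, by omega⟩
    have h1 : ∀ i : Fin m, (if (i : ℕ) + 1 = k + 1 then (1 : ℝ) else 0) * G i =
        (if (i : ℕ) = k then (1 : ℝ) else 0) * G i := by
      intro i
      simp only [add_left_inj]
    rw [Finset.sum_congr rfl fun i _ => h1 i, sum_fin_ite]
    have h2 : (1 ≤ k + 1 ∧ k < m) ↔ k < m := by omega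
    simp only [Nat.add_sub_cancel, h2]

theorem dm_mulVec (n m : ℕ) (G : ℕ → ℝ) (j : Fin n) :
    (dm n m *ᵥ fun i : Fin m => G i) j =
      (if (j : ℕ) < m then G j else 0) - if 1 ≤ (j : ℕ) ∧ (j : ℕ) - 1 < m then G (j - 1) else 0 := by
  rw [← sum_fin_ite m j G, ← sum_fin_ite' m j G, ← Finset.sum_sub_distrib]
  have h0 : (dm n m *ᵥ fun i : Fin m => G i) j = ∑ i : Fin m, dm n m j i * G i := rfl
  rw [h0]
  refine Finset.sum_congr rfl fun i _ => ?_
  unfold dm
  ring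

theorem dmT_mulVec (n m : ℕ) (H : ℕ → ℝ) (i : Fin m) :
    ((dm n m)ᵀ *ᵥ fun j : Fin n => H j) i =
      (if (i : ℕ) < n then H i else 0) - if (i : ℕ) + 1 < n then H (i + 1) else 0 := by
  rw [← sum_fin_ite n i H, ← sum_fin_ite n (i + 1) H, ← Finset.sum_sub_distrib]
  have h0 : ((dm n m)ᵀ *ᵥ fun j : Fin n => H j) i = ∑ j : Fin n, dm n m j i * H j := rfl
  rw [h0]
  refine Finset.sum_congr rfl fun j _ => ?_
  unfold dm
  have h1 : ((i : ℕ) = (j : ℕ)) ↔ ((j : ℕ) = (i : ℕ)) := eq_comm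
  have h2 : ((i : ℕ) + 1 = (j : ℕ)) ↔ ((j : ℕ) = (i : ℕ) + 1) := eq_comm
  simp only [h1, h2]
  ring

/-! ### The eigenvectors -/

/-- the second difference of a wave -/
theorem sin_diff (θ x : ℝ) : 2 * Real.sin (x * θ) - Real.sin ((x - 1) * θ) - Real.sin ((x + 1) * θ) =
    ek θ * Real.sin (x * θ) := by
  unfold ek
  rw [show (x - 1) * θ = x * θ - θ by ring, show (x + 1) * θ = x * θ + θ by ring, Real.sin_sub, Real.sin_add]
  ring

theorem cos_diff (θ x : ℝ) : 2 * Real.cos (x * θ) - Real.cos ((x - 1) * θ) - Real.cos ((x + 1) * θ) =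
    ek θ * Real.cos (x * θ) := by
  unfold ek
  rw [show (x - 1) * θ = x * θ - θ by ring, show (x + 1) * θ = x * θ + θ by ring, Real.cos_sub, Real.cos_add]
  ring

theorem ek_inj {x y : ℝ} (hx0 : 0 ≤ x) (hx : x ≤ Real.pi) (hy0 : 0 ≤ y) (hy : y ≤ Real.pi) (h : ek x = ek y) : x = y := by
  unfold ek at h
  exact Real.injOn_cos ⟨hx0, hx⟩ ⟨hy0, hy⟩ (by linarith)

theorem ek_ge {x : ℝ} (hx0 : 0 ≤ x) (hx : x ≤ Real.pi) : 4 / Real.pi ^ 2 * x ^ 2 ≤ ek x := by
  have h := Real.cos_le_one_sub_mul_cos_sq (x := x) (by rw [abs_of_nonneg hx0]; exact hx)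
  unfold ek
  have h2 : 4 / Real.pi ^ 2 * x ^ 2 = 2 * (2 / Real.pi ^ 2 * x ^ 2) := by ring
  rw [h2]
  linarith

theorem ek_mono {x y : ℝ} (hx0 : 0 ≤ x) (hxy : x ≤ y) (hy : y ≤ Real.pi) : ek x ≤ ek y := by
  unfold ek
  have := Real.cos_le_cos_of_nonneg_of_le_pi hx0 hy hxy
  linarith

/-- `lDD` acting on a sequence vanishing at `0` and `L` -/
theorem lDD_mulVec (L : ℕ) (F : ℕ → ℝ) (h0 : F 0 = 0) (hL : F L = 0) (i : Fin (L - 1)) :
    (lDD L *ᵥ fun i : Fin (L - 1) => F (i + 1)) i = 2 * F (i + 1) - F i - F (i + 2) := by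
  have hi := i.2
  unfold lDD
  rw [← Matrix.mulVec_mulVec]
  have h1 : (dm L (L - 1) *ᵥ fun i : Fin (L - 1) => F (i + 1)) = fun j : Fin L => F (j + 1) - F j := by
    funext j
    have hj := j.2
    rw [dm_mulVec L (L - 1) (fun n => F (n + 1)) j]
    rcases Nat.eq_zero_or_pos (j : ℕ) with h | h
    · rw [h, h0]
      rw [if_pos (by omega), if_neg (by omega)]
    · rw [if_pos (show 1 ≤ (j : ℕ) ∧ (j : ℕ) - 1 < L - 1 by omega), show (j : ℕ) - 1 + 1 = j by omega]
      split_ifs with h2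
      · rfl
      · rw [show (j : ℕ) + 1 = L by omega, hL]
  rw [h1, dmT_mulVec L (L - 1) (fun n => F (n + 1) - F n) i, if_pos (by omega), if_pos (by omega)]
  ring

/-- `lDN` acting on a sequence vanishing at `0` and symmetric at `L` -/
theorem lDN_mulVec (L : ℕ) (F : ℕ → ℝ) (h0 : F 0 = 0) (hL : F (L + 1) = F L) (i : Fin L) :
    (lDN L *ᵥ fun i : Fin L => F (i + 1)) i = 2 * F (i + 1) - F i - F (i + 2) := by
  have hi := i.2
  unfold lDN
  rw [← Matrix.mulVec_mulVec]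
  have h1 : (dm L L *ᵥ fun i : Fin L => F (i + 1)) = fun j : Fin L => F (j + 1) - F j := by
    funext j
    have hj := j.2
    rw [dm_mulVec L L (fun n => F (n + 1)) j, if_pos hj]
    rcases Nat.eq_zero_or_pos (j : ℕ) with h | h
    · rw [h, h0]
      rw [if_neg (by omega)]
    · rw [if_pos (show 1 ≤ (j : ℕ) ∧ (j : ℕ) - 1 < L by omega), show (j : ℕ) - 1 + 1 = j by omega]
  rw [h1, dmT_mulVec L L (fun n => F (n + 1) - F n) i, if_pos hi]
  split_ifs with h2
  · ring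
  · have h3 : (i : ℕ) + 1 = L := by omega
    rw [show (i : ℕ) + 2 = L + 1 by omega, hL, h3]
    ring

/-- `lNN` acting on a sequence symmetric at both ends -/
theorem lNN_mulVec (L : ℕ) (hL2 : 2 ≤ L) (F : ℕ → ℝ) (h0 : F 0 = F 1) (hL : F (L + 1) = F L) (i : Fin L) :
    (lNN L *ᵥ fun i : Fin L => F (i + 1)) i = 2 * F (i + 1) - F i - F (i + 2) := by
  have hi := i.2
  unfold lNN
  rw [← Matrix.mulVec_mulVec]
  have h1 : ((dm L (L - 1))ᵀ *ᵥ fun i : Fin L => F (i + 1)) = fun j : Fin (L - 1) => F (j + 1) - F (j + 2) := by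
    funext j
    have hj := j.2
    rw [dmT_mulVec L (L - 1) (fun n => F (n + 1)) j, if_pos (by omega), if_pos (by omega)]
  rw [h1, dm_mulVec L (L - 1) (fun n => F (n + 1) - F (n + 2)) i]
  rcases Nat.eq_zero_or_pos (i : ℕ) with h | h
  · rw [h, if_pos (by omega), if_neg (by omega), h0]
    ring
  · obtain ⟨k, hk⟩ : ∃ k, (i : ℕ) = k + 1 := ⟨(i : ℕ) - 1, by omega⟩
    rw [hk, if_pos (show 1 ≤ k + 1 ∧ k + 1 - 1 < L - 1 by omega), Nat.add_sub_cancel]
    split_ifs with h2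
    · ring
    · have h3 : L = k + 2 := by omega
      rw [h3] at hL
      rw [show k + 1 + 2 = k + 2 + 1 by ring, hL, show k + 1 + 1 = k + 2 by ring]
      ring

/-! ### The traces -/

/-- the angles for `lDD` and `lNN` -/
def thD (L m : ℕ) : ℝ := Real.pi * m / L

/-- the angles for `lDN` and `lND` -/
def thN (L m : ℕ) : ℝ := Real.pi * (2 * m + 1) / (2 * L + 1)

theorem thD_nonneg (L m : ℕ) : 0 ≤ thD L m := by
  have := Real.pi_pos
  unfold thD
  positivity

theorem thD_lt {L m : ℕ} (h : m < L) : thD L m < Real.pi := by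
  have hpi := Real.pi_pos
  have hL : (0 : ℝ) < L := by exact_mod_cast (by omega : 0 < L)
  have hm : (m : ℝ) < L := by exact_mod_cast h
  unfold thD
  rw [div_lt_iff₀ hL]
  exact mul_lt_mul_of_pos_left hm hpi

theorem thD_pos {L m : ℕ} (h : m < L) (hm : 0 < m) : 0 < thD L m := by
  have hpi := Real.pi_pos
  have hL : (0 : ℝ) < L := by exact_mod_cast (by omega : 0 < L)
  have hm : (0 : ℝ) < m := by exact_mod_cast hm
  unfold thD
  positivity

theorem thD_inj {L m m' : ℕ} (hL : 0 < L) (h : thD L m = thD L m') : m = m' := by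
  have hpi := Real.pi_pos
  have hL : (0 : ℝ) < L := by exact_mod_cast hL
  unfold thD at h
  rw [div_left_inj' hL.ne'] at h
  exact_mod_cast mul_left_cancel₀ hpi.ne' h

theorem thN_pos (L m : ℕ) : 0 < thN L m := by
  have := Real.pi_pos
  unfold thN
  positivity

theorem thN_lt {L m : ℕ} (h : m < L) : thN L m < Real.pi := by
  have hpi := Real.pi_pos
  have hm : (m : ℝ) < L := by exact_mod_cast h
  have hL : (0 : ℝ) < 2 * (L : ℝ) + 1 := by positivity
  unfold thN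
  rw [div_lt_iff₀ hL]
  exact mul_lt_mul_of_pos_left (by linarith) hpi

theorem thN_inj {L m m' : ℕ} (h : thN L m = thN L m') : m = m' := by
  have hpi := Real.pi_pos
  have hL : (0 : ℝ) < 2 * (L : ℝ) + 1 := by positivity
  unfold thN at h
  rw [div_left_inj' hL.ne'] at h
  have h1 := mul_left_cancel₀ hpi.ne' h
  have h2 : (m : ℝ) = m' := by linarith
  exact_mod_cast h2

theorem cc_lDD (L : ℕ) (hL : 2 ≤ L) (t : ℝ) :
    cc (lDD L) t = ∑ m ∈ Finset.range (L - 1), Real.exp (-t * ek (thD L (m + 1))) := by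
  rw [cc_eq (lDD L) (fun m : Fin (L - 1) => ek (thD L (m + 1)))
    (fun m i => Real.sin (((i : ℕ) + 1 : ℕ) * thD L (m + 1))) ?_ ?_ ?_ t]
  · exact Fin.sum_univ_eq_sum_range (fun m => Real.exp (-t * ek (thD L (m + 1)))) (L - 1)
  · intro m m' h
    have hm := m.2
    have hm' := m'.2
    have h1 := ek_inj (thD_nonneg _ _) (thD_lt (by omega)).le (thD_nonneg _ _) (thD_lt (by omega)).le h
    have h2 := thD_inj (by omega) h1
    exact Fin.ext (by omega)
  · intro m h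
    have hm := m.2
    have h1 := congrFun h ⟨0, by omega⟩
    have h2 : 0 < Real.sin (((0 : ℕ) + 1 : ℕ) * thD L (m + 1)) := by
      rw [zero_add, Nat.cast_one, one_mul]
      exact Real.sin_pos_of_pos_of_lt_pi (thD_pos (by omega) (by omega)) (thD_lt (by omega))
    exact h2.ne' h1
  · intro m
    funext i
    have hL0 : (L : ℝ) ≠ 0 := by
      have : 0 < L := by omega
      positivity
    have h1 := lDD_mulVec L (fun n => Real.sin ((n : ℕ) * thD L (m + 1))) (by simp) (by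
      unfold thD
      rw [mul_div_cancel₀ _ hL0, mul_comm]
      exact Real.sin_nat_mul_pi _) i
    rw [h1, Pi.smul_apply, smul_eq_mul, ← sin_diff]
    push_cast
    rw [show ((i : ℕ) : ℝ) + 1 - 1 = (i : ℕ) by ring, show ((i : ℕ) : ℝ) + 1 + 1 = (i : ℕ) + 2 by ring]

theorem cc_lNN (L : ℕ) (hL : 2 ≤ L) (t : ℝ) :
    cc (lNN L) t = ∑ m ∈ Finset.range L, Real.exp (-t * ek (thD L m)) := by
  rw [cc_eq (lNN L) (fun m : Fin L => ek (thD L m))
    (fun m i => Real.cos ((((i : ℕ) + 1 : ℕ) - 1 / 2) * thD L m)) ?_ ?_ ?_ t]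
  · exact Fin.sum_univ_eq_sum_range (fun m => Real.exp (-t * ek (thD L m))) L
  · intro m m' h
    have hm := m.2
    have hm' := m'.2
    have h1 := ek_inj (thD_nonneg _ _) (thD_lt (by omega)).le (thD_nonneg _ _) (thD_lt (by omega)).le h
    have h2 := thD_inj (by omega) h1
    exact Fin.ext (by omega)
  · intro m h
    have hm := m.2
    have h1 := congrFun h ⟨0, by omega⟩
    have h2 : 0 < Real.cos ((((0 : ℕ) + 1 : ℕ) - 1 / 2) * thD L m) := by
      rw [zero_add, Nat.cast_one]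
      apply Real.cos_pos_of_mem_Ioo
      have h3 := thD_nonneg L m
      have h4 := thD_lt hm
      constructor <;> nlinarith [Real.pi_pos]
    exact h2.ne' h1
  · intro m
    funext i
    have hL0 : (L : ℝ) ≠ 0 := by
      have : 0 < L := by omega
      positivity
    have h1 := lNN_mulVec L hL (fun n => Real.cos (((n : ℕ) - 1 / 2) * thD L m)) (by
      simp only [Nat.cast_zero, Nat.cast_one]
      rw [show ((0 : ℝ) - 1 / 2) * thD L m = -((1 - 1 / 2) * thD L m) by ring, Real.cos_neg]) (by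
      have h2 : (((L + 1 : ℕ) : ℝ) - 1 / 2) * thD L m = (m : ℝ) * Real.pi + thD L m / 2 := by
        unfold thD
        push_cast
        field_simp
        ring
      have h3 : ((L : ℝ) - 1 / 2) * thD L m = (m : ℝ) * Real.pi - thD L m / 2 := by
        unfold thD
        field_simp
      show Real.cos ((((L + 1 : ℕ) : ℝ) - 1 / 2) * thD L m) = Real.cos (((L : ℝ) - 1 / 2) * thD L m)
      rw [h2, h3, Real.cos_add, Real.cos_sub, Real.sin_nat_mul_pi]
      ring) i
    rw [h1, Pi.smul_apply, smul_eq_mul, ← cos_diff]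
    push_cast
    rw [show ((i : ℕ) : ℝ) + 1 - 1 / 2 - 1 = (i : ℕ) - 1 / 2 by ring,
      show ((i : ℕ) : ℝ) + 1 - 1 / 2 + 1 = (i : ℕ) + 2 - 1 / 2 by ring]

theorem lDN_eig (L : ℕ) (m : ℕ) (i : Fin L) :
    (lDN L *ᵥ fun i : Fin L => Real.sin (((i : ℕ) + 1 : ℕ) * thN L m)) i =
      ek (thN L m) * Real.sin (((i : ℕ) + 1 : ℕ) * thN L m) := by
  have h1 := lDN_mulVec L (fun n => Real.sin ((n : ℕ) * thN L m)) (by simp) (by
    have h0 : (2 * (L : ℝ) + 1) ≠ 0 := by positivity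
    have h2 : ((L + 1 : ℕ) : ℝ) * thN L m = (m : ℝ) * Real.pi + Real.pi / 2 + thN L m / 2 := by
      unfold thN
      push_cast
      field_simp
      ring
    have h3 : (L : ℝ) * thN L m = (m : ℝ) * Real.pi + Real.pi / 2 - thN L m / 2 := by
      unfold thN
      field_simp
      ring
    show Real.sin (((L + 1 : ℕ) : ℝ) * thN L m) = Real.sin ((L : ℝ) * thN L m)
    rw [h2, h3, Real.sin_add, Real.sin_sub, Real.sin_add_pi_div_two, Real.cos_add_pi_div_two, Real.sin_nat_mul_pi]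
    ring) i
  rw [h1, ← sin_diff]
  push_cast
  rw [show ((i : ℕ) : ℝ) + 1 - 1 = (i : ℕ) by ring, show ((i : ℕ) : ℝ) + 1 + 1 = (i : ℕ) + 2 by ring]

theorem vN_ne (L : ℕ) (m : Fin L) : (fun i : Fin L => Real.sin (((i : ℕ) + 1 : ℕ) * thN L m)) ≠ 0 := by
  intro h
  have hm := m.2
  have h1 := congrFun h ⟨0, by omega⟩
  have h2 : 0 < Real.sin (((0 : ℕ) + 1 : ℕ) * thN L m) := by
    rw [zero_add, Nat.cast_one, one_mul]
    exact Real.sin_pos_of_pos_of_lt_pi (thN_pos _ _) (thN_lt hm)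
  exact h2.ne' h1

theorem ekN_inj (L : ℕ) : Function.Injective fun m : Fin L => ek (thN L m) := by
  intro m m' h
  have hm := m.2
  have hm' := m'.2
  have h1 := ek_inj (thN_pos _ _).le (thN_lt hm).le (thN_pos _ _).le (thN_lt hm').le h
  exact Fin.ext (thN_inj h1)

theorem cc_lDN (L : ℕ) (t : ℝ) :
    cc (lDN L) t = ∑ m ∈ Finset.range L, Real.exp (-t * ek (thN L m)) := by
  rw [cc_eq (lDN L) (fun m : Fin L => ek (thN L m))
    (fun m i => Real.sin (((i : ℕ) + 1 : ℕ) * thN L m)) (ekN_inj L) (vN_ne L) ?_ t]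
  · exact Fin.sum_univ_eq_sum_range (fun m => Real.exp (-t * ek (thN L m))) L
  · intro m
    funext i
    exact lDN_eig L m i

theorem ekN_pos {L m : ℕ} (h : m < L) : 0 < ek (thN L m) := by
  have h1 := ek_ge (thN_pos L m).le (thN_lt h).le
  have h2 := thN_pos L m
  have h3 := Real.pi_pos
  have h4 : 0 < 4 / Real.pi ^ 2 * thN L m ^ 2 := by positivity
  linarith

theorem cc_lND (L : ℕ) (t : ℝ) :
    cc (lND L) t = ∑ m ∈ Finset.range L, Real.exp (-t * ek (thN L m)) := by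
  have hE : ∀ m : Fin L, lDN L *ᵥ (fun i : Fin L => Real.sin (((i : ℕ) + 1 : ℕ) * thN L m)) =
      ek (thN L m) • fun i : Fin L => Real.sin (((i : ℕ) + 1 : ℕ) * thN L m) := by
    intro m
    funext i
    exact lDN_eig L m i
  rw [cc_eq (lND L) (fun m : Fin L => ek (thN L m))
    (fun m => dm L L *ᵥ fun i => Real.sin (((i : ℕ) + 1 : ℕ) * thN L m)) (ekN_inj L) ?_ ?_ t]
  · exact Fin.sum_univ_eq_sum_range (fun m => Real.exp (-t * ek (thN L m))) L
  · intro m h
    have h1 := hE m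
    unfold lDN at h1
    rw [← Matrix.mulVec_mulVec] at h1
    rw [h, Matrix.mulVec_zero] at h1
    rcases smul_eq_zero.1 h1.symm with h2 | h2
    · exact (ekN_pos m.2).ne' h2
    · exact vN_ne L m h2
  · intro m
    have h1 := hE m
    unfold lDN at h1
    unfold lND
    rw [← Matrix.mulVec_mulVec, Matrix.mulVec_mulVec _ ((dm L L)ᵀ) (dm L L), h1, Matrix.mulVec_smul]

/-! ### Riemann sums -/

theorem int_scale (t : ℝ) {c : ℝ} (hc : 0 < c) :
    ∫ x in (0 : ℝ)..c, Real.exp (-t * ek (Real.pi * x / c)) = c * hh t := by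
  have hpi := Real.pi_pos
  have h1 := intervalIntegral.integral_comp_mul_left (a := 0) (b := c) (c := Real.pi / c)
    (fun k => Real.exp (-t * ek k)) (by positivity)
  rw [mul_zero, div_mul_cancel₀ _ hc.ne', smul_eq_mul] at h1
  have h2 : (fun x => Real.exp (-t * ek (Real.pi * x / c))) = fun x => Real.exp (-t * ek (Real.pi / c * x)) := by
    funext x
    rw [mul_div_right_comm]
  rw [h2, h1]
  unfold hh
  field_simp

theorem anti (t : ℝ) (ht : 0 ≤ t) {c : ℝ} (hc : 0 < c) :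
    AntitoneOn (fun x => Real.exp (-t * ek (Real.pi * x / c))) (Set.Icc 0 c) := by
  intro x hx y hy hxy
  have hpi := Real.pi_pos
  have h1 : ek (Real.pi * x / c) ≤ ek (Real.pi * y / c) := by
    apply ek_mono
    · have := hx.1
      positivity
    · gcongr
    · rw [div_le_iff₀ hc]
      exact mul_le_mul_of_nonneg_left hy.2 hpi.le
  show Real.exp (-t * ek (Real.pi * y / c)) ≤ Real.exp (-t * ek (Real.pi * x / c))
  rw [Real.exp_le_exp]
  nlinarith

theorem cont (t c : ℝ) : Continuous fun x => Real.exp (-t * ek (Real.pi * x / c)) := by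
  unfold ek
  fun_prop

theorem ek_nonneg (x : ℝ) : 0 ≤ ek x := by
  unfold ek
  have := Real.cos_le_one x
  linarith

theorem exp_le_one' {t : ℝ} (ht : 0 ≤ t) (x : ℝ) : Real.exp (-t * ek x) ≤ 1 := by
  rw [Real.exp_le_one_iff]
  have := ek_nonneg x
  nlinarith

theorem hh_nonneg (t : ℝ) : 0 ≤ hh t := by
  have h1 := int_scale t one_pos
  rw [one_mul] at h1
  rw [← h1]
  exact intervalIntegral.integral_nonneg zero_le_one fun x _ => (Real.exp_pos _).le

theorem int_le {t : ℝ} (ht : 0 ≤ t) {a b c : ℝ} (hab : a ≤ b) :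
    ∫ x in a..b, Real.exp (-t * ek (Real.pi * x / c)) ≤ b - a := by
  have h1 : ∫ x in a..b, Real.exp (-t * ek (Real.pi * x / c)) ≤ ∫ x in a..b, (1 : ℝ) := by
    refine intervalIntegral.integral_mono_on hab ((cont t c).intervalIntegrable _ _) (by simp) fun x _ => ?_
    exact exp_le_one' ht _
  rwa [intervalIntegral.integral_const, smul_eq_mul, mul_one] at h1

theorem hh_le_one {t : ℝ} (ht : 0 ≤ t) : hh t ≤ 1 := by
  have h1 := int_scale t one_pos
  rw [one_mul] at h1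
  rw [← h1]
  have := int_le (t := t) ht (c := 1) (zero_le_one (α := ℝ))
  linarith

theorem trD (L : ℕ) (hL : 2 ≤ L) (t : ℝ) (ht : 0 ≤ t) :
    cc (lNN L) t = 1 + cc (lDD L) t ∧ cc (lDD L) t ≤ L * hh t ∧ L * hh t ≤ cc (lNN L) t := by
  have hL0 : (0 : ℝ) < L := by exact_mod_cast (by omega : 0 < L)
  have hI := int_scale t hL0
  have h1 := AntitoneOn.integral_le_sum (x₀ := 0) (a := L)
    (f := fun x => Real.exp (-t * ek (Real.pi * x / L))) (by rw [zero_add]; exact anti t ht hL0)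
  have h2 := AntitoneOn.sum_le_integral (x₀ := 0) (a := L)
    (f := fun x => Real.exp (-t * ek (Real.pi * x / L))) (by rw [zero_add]; exact anti t ht hL0)
  rw [zero_add, hI] at h1 h2
  simp only [zero_add] at h1 h2
  have hN : cc (lNN L) t = ∑ i ∈ Finset.range L, Real.exp (-t * ek (Real.pi * (i : ℕ) / L)) := cc_lNN L hL t
  have hD : cc (lDD L) t = ∑ i ∈ Finset.range (L - 1), Real.exp (-t * ek (Real.pi * ((i + 1 : ℕ) : ℝ) / L)) :=
    cc_lDD L hL t
  obtain ⟨K, rfl⟩ : ∃ K, L = K + 1 := ⟨L - 1, by omega⟩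
  replace hD : cc (lDD (K + 1)) t =
      ∑ i ∈ Finset.range K, Real.exp (-t * ek (Real.pi * ((i + 1 : ℕ) : ℝ) / ((K + 1 : ℕ) : ℝ))) := hD
  refine ⟨?_, ?_, ?_⟩
  · rw [hN, hD, Finset.sum_range_succ']
    have h3 : Real.exp (-t * ek (Real.pi * ((0 : ℕ) : ℝ) / ((K + 1 : ℕ) : ℝ))) = 1 := by
      unfold ek
      simp
    rw [h3, add_comm]
  · refine le_trans ?_ h2
    rw [hD, Finset.sum_range_succ]
    have := Real.exp_pos (-t * ek (Real.pi * ((K + 1 : ℕ) : ℝ) / ((K + 1 : ℕ) : ℝ)))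
    linarith
  · rw [hN]
    exact h1

theorem trN (L : ℕ) (hL : 2 ≤ L) (t : ℝ) (ht : 0 ≤ t) :
    |∑ m ∈ Finset.range L, Real.exp (-t * ek (thN L m)) - L * hh t| ≤ 2 := by
  have hL0 : (0 : ℝ) < L := by exact_mod_cast (by omega : 0 < L)
  have hM : (0 : ℝ) < (L : ℝ) + 1 / 2 := by positivity
  have hI := int_scale t hM
  have han : AntitoneOn (fun x => Real.exp (-t * ek (Real.pi * x / ((L : ℝ) + 1 / 2))))
      (Set.Icc (1 / 2) (1 / 2 + (L : ℝ))) := by
    refine (anti t ht hM).mono ?_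
    intro x hx
    exact ⟨by linarith [hx.1], by linarith [hx.2]⟩
  have h1 := AntitoneOn.integral_le_sum (x₀ := 1 / 2) (a := L) han
  have h2 := AntitoneOn.sum_le_integral (x₀ := 1 / 2) (a := L) han
  have h3 : ∀ m : ℕ, Real.exp (-t * ek (thN L m)) =
      Real.exp (-t * ek (Real.pi * (1 / 2 + (m : ℝ)) / ((L : ℝ) + 1 / 2))) := by
    intro m
    have : thN L m = Real.pi * (1 / 2 + (m : ℝ)) / ((L : ℝ) + 1 / 2) := by
      unfold thN
      field_simp
      ring
    rw [this]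
  have h4 : ∑ m ∈ Finset.range L, Real.exp (-t * ek (thN L m)) =
      ∑ i ∈ Finset.range L, Real.exp (-t * ek (Real.pi * (1 / 2 + (i : ℝ)) / ((L : ℝ) + 1 / 2))) :=
    Finset.sum_congr rfl fun m _ => h3 m
  set g : ℝ → ℝ := fun x => Real.exp (-t * ek (Real.pi * x / ((L : ℝ) + 1 / 2))) with hg
  have h5 : ∑ i ∈ Finset.range L, (g (1 / 2 + (i : ℝ)) - g (1 / 2 + ((i + 1 : ℕ) : ℝ))) =
      g (1 / 2 + ((0 : ℕ) : ℝ)) - g (1 / 2 + (L : ℝ)) :=
    Finset.sum_range_sub' (fun i => g (1 / 2 + (i : ℝ))) L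
  rw [Finset.sum_sub_distrib] at h5
  have h6 : g (1 / 2 + ((0 : ℕ) : ℝ)) ≤ 1 := exp_le_one' ht _
  have h7 : 0 ≤ g (1 / 2 + (L : ℝ)) := (Real.exp_pos _).le
  have h8 : (∫ x in (0 : ℝ)..(1 / 2), g x) + ∫ x in (1 / 2 : ℝ)..(1 / 2 + (L : ℝ)), g x = ((L : ℝ) + 1 / 2) * hh t := by
    rw [← hI, intervalIntegral.integral_add_adjacent_intervals ((cont t _).intervalIntegrable _ _)
      ((cont t _).intervalIntegrable _ _), add_comm (1 / 2 : ℝ) (L : ℝ)]
  have h9 : ∫ x in (0 : ℝ)..(1 / 2), g x ≤ 1 / 2 - 0 := int_le ht (by norm_num)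
  have h10 : 0 ≤ ∫ x in (0 : ℝ)..(1 / 2), g x :=
    intervalIntegral.integral_nonneg (by norm_num) fun x _ => (Real.exp_pos _).le
  have h11 := hh_nonneg t
  have h12 := hh_le_one ht
  rw [h4]
  change |∑ i ∈ Finset.range L, g (1 / 2 + (i : ℝ)) - L * hh t| ≤ 2
  have h13 : ((L : ℝ) + 1 / 2) * hh t = L * hh t + hh t / 2 := by ring
  rw [h13] at h8
  rw [abs_le]
  constructor <;> linarith

theorem geom_two (n : ℕ) : ∑ m ∈ Finset.range n, (1 / 2 : ℝ) ^ m ≤ 2 := by
  rw [geom_sum_eq (by norm_num)]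
  have h1 : (0 : ℝ) < (1 / 2) ^ n := by positivity
  have h2 : ((1 / 2 : ℝ) ^ n - 1) / (1 / 2 - 1) = 2 * (1 - (1 / 2) ^ n) := by
    rw [div_eq_iff (by norm_num)]
    ring
  rw [h2]
  linarith

theorem exp_neg_le (m : ℕ) : Real.exp (-(m : ℝ)) ≤ (1 / 2) ^ m := by
  have h1 : Real.exp (-(m : ℝ)) = (Real.exp (-1)) ^ m := by
    rw [← Real.exp_nat_mul]
    ring_nf
  rw [h1]
  refine pow_le_pow_left₀ (Real.exp_pos _).le ?_ m
  rw [Real.exp_neg, inv_eq_one_div]
  apply one_div_le_one_div_of_le (by norm_num)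
  have := Real.add_one_le_exp (1 : ℝ)
  linarith

theorem decD (L : ℕ) (hL : 2 ≤ L) (t : ℝ) (ht : (L : ℝ) ^ 2 ≤ t) : cc (lNN L) t ≤ 2 := by
  have hpi := Real.pi_pos
  have hL0 : (0 : ℝ) < L := by exact_mod_cast (by omega : 0 < L)
  rw [cc_lNN L hL t]
  refine le_trans (Finset.sum_le_sum fun m hm => ?_) (geom_two L)
  rw [Finset.mem_range] at hm
  refine le_trans ?_ (exp_neg_le m)
  rw [Real.exp_le_exp]
  have h1 := ek_ge (thD_nonneg L m) (thD_lt hm).le
  have h2 : 4 / Real.pi ^ 2 * thD L m ^ 2 = 4 * (m : ℝ) ^ 2 / (L : ℝ) ^ 2 := by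
    unfold thD
    field_simp
  rw [h2] at h1
  have h3 : (L : ℝ) ^ 2 * (4 * (m : ℝ) ^ 2 / (L : ℝ) ^ 2) ≤ t * ek (thD L m) :=
    mul_le_mul ht h1 (by positivity) (le_trans (by positivity) ht)
  rw [mul_div_cancel₀ _ (by positivity)] at h3
  have h4 : (m : ℝ) ≤ 4 * (m : ℝ) ^ 2 := by
    rcases Nat.eq_zero_or_pos m with h | h
    · rw [h]
      simp
    · have : (1 : ℝ) ≤ m := by exact_mod_cast h
      nlinarith
  linarith

theorem decN (L : ℕ) (hL : 2 ≤ L) (t : ℝ) (ht : (L : ℝ) ^ 2 ≤ t) :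
    ∑ m ∈ Finset.range L, Real.exp (-t * ek (thN L m)) ≤ 2 * Real.exp (-(t / (2 * (L : ℝ) ^ 2))) := by
  have hpi := Real.pi_pos
  have hL0 : (2 : ℝ) ≤ L := by exact_mod_cast hL
  have hLL : (0 : ℝ) < (L : ℝ) ^ 2 := by positivity
  have h0 : ∀ m ∈ Finset.range L, Real.exp (-t * ek (thN L m)) ≤
      (1 / 2) ^ m * Real.exp (-(t / (2 * (L : ℝ) ^ 2))) := by
    intro m hm
    rw [Finset.mem_range] at hm
    refine le_trans ?_ (mul_le_mul_of_nonneg_right (exp_neg_le m) (Real.exp_pos _).le)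
    rw [← Real.exp_add, Real.exp_le_exp]
    have h1 := ek_ge (thN_pos L m).le (thN_lt hm).le
    have h2 : 4 / Real.pi ^ 2 * thN L m ^ 2 = 4 * (2 * (m : ℝ) + 1) ^ 2 / (2 * (L : ℝ) + 1) ^ 2 := by
      unfold thN
      field_simp
    rw [h2] at h1
    set τ : ℝ := t / (L : ℝ) ^ 2 with hτ
    have hτ1 : 1 ≤ τ := by
      rw [hτ, le_div_iff₀ hLL, one_mul]
      exact ht
    have ht2 : t = τ * (L : ℝ) ^ 2 := by
      rw [hτ, div_mul_cancel₀ _ hLL.ne']
    have h3 : t / (2 * (L : ℝ) ^ 2) = τ / 2 := by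
      rw [hτ]
      field_simp
    have h4 : 16 / 25 * (4 * (m : ℝ) + 1) / (L : ℝ) ^ 2 ≤ ek (thN L m) := by
      refine le_trans ?_ h1
      rw [div_le_div_iff₀ hLL (by positivity)]
      have hm0 : (0 : ℝ) ≤ m := Nat.cast_nonneg m
      have h5 : (2 * (L : ℝ) + 1) ^ 2 ≤ 25 / 4 * (L : ℝ) ^ 2 := by nlinarith
      have h6 : 4 * (m : ℝ) + 1 ≤ (2 * (m : ℝ) + 1) ^ 2 := by nlinarith
      calc 16 / 25 * (4 * (m : ℝ) + 1) * (2 * (L : ℝ) + 1) ^ 2
          ≤ 16 / 25 * (2 * (m : ℝ) + 1) ^ 2 * (25 / 4 * (L : ℝ) ^ 2) := by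
            refine mul_le_mul ?_ h5 (by positivity) (by positivity)
            linarith
        _ = 4 * (2 * (m : ℝ) + 1) ^ 2 * (L : ℝ) ^ 2 := by ring
    have h7 : τ * (16 / 25 * (4 * (m : ℝ) + 1)) ≤ t * ek (thN L m) := by
      have h8 : t * (16 / 25 * (4 * (m : ℝ) + 1) / (L : ℝ) ^ 2) ≤ t * ek (thN L m) :=
        mul_le_mul_of_nonneg_left h4 (le_trans hLL.le ht)
      refine le_trans (le_of_eq ?_) h8
      rw [hτ]
      field_simp
    have hm0 : (0 : ℝ) ≤ m := Nat.cast_nonneg m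
    rw [h3]
    nlinarith [mul_nonneg hm0 (sub_nonneg.2 hτ1)]
  refine le_trans (Finset.sum_le_sum h0) ?_
  rw [← Finset.sum_mul]
  exact mul_le_mul_of_nonneg_right (geom_two L) (Real.exp_pos _).le

/-- **Task AF-C.** -/
theorem tc : S_C := by
  refine ⟨2, by norm_num, fun L hL t ht => ?_⟩
  obtain ⟨h1, h2, h3⟩ := trD L hL t ht
  have h4 := trN L hL t ht
  have hD0 : 0 ≤ cc (lDD L) t := by
    rw [cc_lDD L hL t]
    exact Finset.sum_nonneg fun _ _ => (Real.exp_pos _).le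
  have hN0 : 0 ≤ ∑ m ∈ Finset.range L, Real.exp (-t * ek (thN L m)) :=
    Finset.sum_nonneg fun _ _ => (Real.exp_pos _).le
  refine ⟨⟨hD0, ?_⟩, ⟨by linarith, ?_⟩, ⟨?_, ?_⟩, ⟨?_, ?_⟩, fun hLt => ⟨?_, ?_, ?_, ?_⟩⟩
  · rw [abs_le]
    constructor <;> linarith
  · rw [abs_le]
    constructor <;> linarith
  · rw [cc_lDN]
    exact hN0
  · rw [cc_lDN]
    exact h4
  · rw [cc_lND]
    exact hN0
  · rw [cc_lND]
    exact h4
  · have := decD L hL t hLt
    linarith
  · exact decD L hL t hLt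
  · rw [cc_lDN]
    exact decN L hL t hLt
  · rw [cc_lND]
    exact decN L hL t hLt

end

end Pool.Agent.H643.AF
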